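import Pool.Agent.H.MP_21aec1_al.Main

set_option autoImplicit false

namespace Pool.Agent.H.MP_21aec1_al.Old.Centralizers

open Pool.Agent.H.MP_21aec1_al

/-- In a QCF group every undistorted infinite cyclic subgroup has finite index in its
centraliser. -/
theorem main : ∀ (G : Type) [Group G], IsQCF G → ∀ v : G, UndistortedElement v →
    ((Subgroup.zpowers v).subgroupOf (Subgroup.centralizer {v})).FiniteIndex := by
  intro G _ hQ v hv
  exact centralizer_finiteIndex hQ hv

end Pool.Agent.H.MP_21aec1_al.Old.Centralizers
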