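import Pool.Agent.H.MP_21aec1_al.Sub

set_option autoImplicit false

namespace Pool.Agent.H.MP_21aec1_al.Old.SubgroupCentralizers

open Pool.Agent.H.MP_21aec1_al

/-- An infinite, finitely generated, undistorted subgroup of a QCF group is virtually cyclic or has
a finite centraliser. -/
theorem main : ∀ (G : Type) [Group G], IsQCF G → ∀ K : Subgroup G, UndistortedSubgroup K →
    Infinite K → (∃ v ∈ K, ((Subgroup.zpowers v).subgroupOf K).FiniteIndex) ∨
      Finite (Subgroup.centralizer (K : Set G)) := by
  intro G _ hQ K hK hinf
  exact centralizer_dichotomy hQ hK hinf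

end Pool.Agent.H.MP_21aec1_al.Old.SubgroupCentralizers
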