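import Pool.Agent.H.MP_21aec1_al.Sub

set_option autoImplicit false

namespace Pool.Agent.H.MP_21aec1_al.Old.UndistortedElements

open Pool.Agent.H.MP_21aec1_al

/-- Every infinite, finitely generated, undistorted subgroup of a QCF group contains an element
that generates an undistorted infinite cyclic subgroup of the whole group. -/
theorem main : ∀ (G : Type) [Group G], IsQCF G → ∀ K : Subgroup G, UndistortedSubgroup K →
    Infinite K → ∃ v ∈ K, UndistortedElement v := by
  intro G _ hQ K hK hinf
  exact exists_undistorted hQ hK hinf

end Pool.Agent.H.MP_21aec1_al.Old.UndistortedElements
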